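import Pool.Agent.H479.V.Stm2
import Pool.Graph.R_pool_sql_team_seeded_63374d34.N531.PV_TAU

open MeasureTheory Filter Topology

namespace H479.V

open H479.P
open H479.U hiding mz_nonneg
open Pool.Agent.Y744 TH803TW
open Pool.Agent.N804 (SC CT)
open Pool.Agent.N804.PV (DT GV ph aT S_ABEL S_ABELB S_TAU)

namespace TAx

lemma ph_nn (v : ℝ) : 0 ≤ ph v := sq_nonneg _

/-- splitting at the height `U` -/
lemma split_cut {U V : ℝ} (h : U ≤ V) (F : ℂ × ℂ → ℝ) :
    ∑ q ∈ Zt V ×ˢ Zt V, F q = ∑ s ∈ Zt U, ∑ s' ∈ Zt U, F (s, s') +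
      ∑ q ∈ Zt V ×ˢ Zt V, (if U < max q.1.im q.2.im then F q else 0) := by
  rw [← cut h, ← Finset.sum_add_distrib]
  refine Finset.sum_congr rfl fun q _ => ?_
  by_cases h1 : max q.1.im q.2.im ≤ U
  · rw [if_pos h1, if_neg (not_lt.2 h1), add_zero]
  · rw [if_neg h1, if_pos (not_le.1 h1), zero_add]

lemma scale8 {f : ℝ → ℝ} {C : ℝ} (hC : 0 ≤ C)
    (hs : ∀ y s, 1 ≤ s → |f (s * y) - f y| ≤ C * (s - 1) / (1 + y ^ 2)) {r : ℝ} (hr : 1 / 2 ≤ r)
    (y : ℝ) : |f (r * y) - f y| ≤ 8 * C * |r - 1| * (1 / (1 + y ^ 2)) := by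
  rcases le_total 1 r with h | h
  · have h1 := hs y r h
    rw [abs_of_nonneg (sub_nonneg.2 h)]
    have h2 : 0 ≤ C * (r - 1) / (1 + y ^ 2) := by
      have := sub_nonneg.2 h
      positivity
    calc _ ≤ _ := h1
      _ ≤ 8 * (C * (r - 1) / (1 + y ^ 2)) := by linarith
      _ = _ := by ring
  · have hr0 : 0 < r := by linarith
    have h1 := hs (r * y) (1 / r) (by rw [le_div_iff₀ hr0]; linarith)
    rw [show 1 / r * (r * y) = y by field_simp] at h1
    rw [abs_sub_comm, abs_of_nonpos (by linarith : r - 1 ≤ 0)]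
    refine h1.trans ?_
    have h2 : 1 / r - 1 ≤ 2 * (1 - r) := by
      rw [div_sub_one hr0.ne', div_le_iff₀ hr0]
      nlinarith
    have h3 : (1 + y ^ 2) / 4 ≤ 1 + (r * y) ^ 2 := by
      have h4 : 1 / 4 ≤ r ^ 2 := by nlinarith
      have h5 : 1 / 4 * y ^ 2 ≤ r ^ 2 * y ^ 2 := mul_le_mul_of_nonneg_right h4 (sq_nonneg y)
      nlinarith
    have h6 : 0 ≤ 1 - r := by linarith
    calc C * (1 / r - 1) / (1 + (r * y) ^ 2) ≤ C * (2 * (1 - r)) / ((1 + y ^ 2) / 4) :=
          div_le_div₀ (by positivity) (mul_le_mul_of_nonneg_left h2 hC) (by positivity) h3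
      _ = 8 * C * (-(r - 1)) * (1 / (1 + y ^ 2)) := by
          field_simp
          ring

lemma cw_nonneg {f : ℝ → ℝ} (hf : ∀ y, 0 ≤ f y) {T : ℝ} (hT : 1 < T) (q : ℂ × ℂ) :
    0 ≤ cw f T q := by
  have hL := Real.log_pos hT
  unfold cw
  refine mul_nonneg (mul_nonneg (mz_nonneg _) (mz_nonneg _)) (mul_nonneg ?_ (hf _))
  positivity

lemma cw_abs {f g : ℝ → ℝ} (hfg : ∀ y, |f y| ≤ g y) {T : ℝ} (hT : 1 < T) (q : ℂ × ℂ) :
    |cw f T q| ≤ cw g T q := by
  have hL := Real.log_pos hT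
  have hm : 0 ≤ mz q.1 * mz q.2 := mul_nonneg (mz_nonneg _) (mz_nonneg _)
  have h2 : 0 ≤ 2 / (T * Real.log T) := by positivity
  unfold cw
  rw [abs_mul, abs_of_nonneg hm, abs_mul, abs_of_nonneg h2]
  exact mul_le_mul_of_nonneg_left (mul_le_mul_of_nonneg_left (hfg _) h2) hm

lemma decay1 {w : ℝ → ℝ} {D : ℝ} (hD : 0 ≤ D) (hd : ∀ y, |CT w y| ≤ D / (1 + y ^ 2) ^ 2) (y : ℝ) :
    |CT w y| ≤ (fun y => D / (1 + y ^ 2)) y := by
  refine (hd _).trans ?_
  apply div_le_div_of_nonneg_left hD (by positivity)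
  have := sq_nonneg y
  nlinarith

/-- tails -/
lemma tail {C B T0 D : ℝ} (hC : 0 < C) (hCb : ∀ (ι : Type) (A : Finset ι) (p d : ι → ℝ) (B : ℝ), 0 ≤ B →
      (∀ i ∈ A, 0 < p i ∧ 0 ≤ d i) →
      (∀ v : ℝ, 0 < v → ∑ i ∈ A, (if p i ≤ v then d i else 0) ≤ B * (1 + v)) →
      ∀ lam : ℝ, 0 < lam → ∑ i ∈ A, ph (p i / lam) * d i ≤ C * B * (1 + lam) ∧
        ∀ R : ℝ, 1 ≤ R → ∑ i ∈ A, (if R ≤ p i then ph (p i / lam) * d i else 0) ≤ C * B * lam ^ 2 / R)
    (hB : 0 ≤ B) (hT0 : 20 ≤ T0) (hD : 0 ≤ D)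
    (hb : ∀ T : ℝ, T0 ≤ T → ∀ v : ℝ, 0 < v →
      ∑ q ∈ AP T, (if pp T q ≤ v then cw (fun y => D / (1 + y ^ 2)) T q else 0) ≤ B * (1 + v))
    {w : ℝ → ℝ} (hd : ∀ y, |CT w y| ≤ D / (1 + y ^ 2) ^ 2)
    {T : ℝ} (hT : T0 ≤ T) {v : ℝ} (hv : 0 < v) {M : ℝ} (hM : 1 ≤ M / T) :
    |∑ q ∈ AP T, (if M < max q.1.im q.2.im then ph (pp T q / v) * cw (CT w) T q else 0)| ≤
      C * B * v ^ 2 / (M / T) := by
  have hT20 : 20 ≤ T := hT0.trans hT
  have hT1 : 1 < T := by linarith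
  have hT00 : 0 < T := by linarith
  have h1 := (hCb (ℂ × ℂ) (AP T) (pp T) (cw (fun y => D / (1 + y ^ 2)) T) B hB
    (fun q hq => ⟨pp_pos hT00 hq, cw_nonneg (fun y => by positivity) hT1 q⟩) (hb T hT) v hv).2 _ hM
  refine (Finset.abs_sum_le_sum_abs _ _).trans (le_trans (Finset.sum_le_sum fun q hq => ?_) h1)
  by_cases h2 : M < max q.1.im q.2.im
  · have h3 : M / T ≤ pp T q := by
      unfold pp
      exact div_le_div_of_nonneg_right h2.le hT00.le
    rw [if_pos h2, if_pos h3, abs_mul, abs_of_nonneg (ph_nn _)]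
    exact mul_le_mul_of_nonneg_left (cw_abs (decay1 hD hd) hT1 q) (ph_nn _)
  · rw [if_neg h2, abs_zero]
    split_ifs
    · exact mul_nonneg (ph_nn _) (cw_nonneg (fun y => by positivity) hT1 q)
    · exact le_rfl

lemma pp_scale {v T : ℝ} (hv : 0 < v) (hT : 0 < T) (q : ℂ × ℂ) : pp (v * T) q = pp T q / v := by
  unfold pp
  field_simp

/-- change of scale in the weight -/
lemma star (RH : RiemannHypothesis) {w : ℝ → ℝ} {ℓ : ℝ} (hw : EW w) (h : Tendsto (RP w) atTop (𝓝 ℓ))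
    {v : ℝ} (hv : 0 < v) :
    Tendsto (fun T => ∑ q ∈ AP T, ph (pp T q / v) * cw (CT w) T q) atTop (𝓝 (v * ℓ)) := by
  obtain ⟨D, hD, hd⟩ := ew_decay hw
  obtain ⟨B, T0, hB, hT0, hb⟩ := Bbound RH hD
  obtain ⟨B1, T1, hB1, hT1, hb1⟩ := Bbound RH (D := 1) zero_le_one
  obtain ⟨C, hC, hCb⟩ := Pool.Agent.N482.PV.abelb
  obtain ⟨C1, hC1, hs⟩ := ew_scale hw
  have hpi := Real.pi_pos
  have hvT : Tendsto (fun T : ℝ => v * T) atTop atTop := tendsto_id.const_mul_atTop hv
  have hr := logq hv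
  have h1 : Tendsto (fun T => v * (Real.log (v * T) / Real.log T) * RP w (v * T)) atTop (𝓝 (v * 1 * ℓ)) :=
    (hr.const_mul v).mul (h.comp hvT)
  rw [mul_one] at h1
  -- the difference tends to zero
  obtain ⟨μ, hμ⟩ : ∃ μ : ℝ, μ = min 1 (v ^ 2) := ⟨_, rfl⟩
  have hμ0 : 0 < μ := by rw [hμ]; exact lt_min one_pos (by positivity)
  have hR1 : Tendsto (fun T : ℝ => μ * T) atTop atTop := tendsto_id.const_mul_atTop hμ0
  have hR2 : Tendsto (fun T : ℝ => μ / v * T) atTop atTop :=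
    tendsto_id.const_mul_atTop (by positivity)
  have hdiff : Tendsto (fun T => ∑ q ∈ AP T, ph (pp T q / v) * cw (CT w) T q -
      v * (Real.log (v * T) / Real.log T) * RP w (v * T)) atTop (𝓝 0) := by
    have hbd : Tendsto (fun T => C * B * v ^ 2 / (μ * T) +
        v * |Real.log (v * T) / Real.log T| * (C * B * 1 ^ 2 / (μ / v * T)) +
        8 * C1 * |Real.log (v * T) / Real.log T - 1| * (C * B1 * (1 + v))) atTop (𝓝 0) := by
      have a1 : Tendsto (fun T => C * B * v ^ 2 / (μ * T)) atTop (𝓝 0) := hR1.const_div_atTop _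
      have a2 : Tendsto (fun T => C * B * 1 ^ 2 / (μ / v * T)) atTop (𝓝 0) := hR2.const_div_atTop _
      have a3 := ((hr.abs).const_mul v).mul a2
      have a4 := (((hr.sub_const 1).abs).const_mul (8 * C1)).mul_const (C * B1 * (1 + v))
      have a5 := (a1.add a3).add a4
      have e : (0 : ℝ) + v * |(1 : ℝ)| * 0 + 8 * C1 * |(1 : ℝ) - 1| * (C * B1 * (1 + v)) = 0 := by
        rw [sub_self, abs_zero]
        ring
      rw [e] at a5
      exact a5
    refine squeeze_zero_norm' ?_ hbd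
    filter_upwards [eventually_ge_atTop T0, eventually_ge_atTop T1, hvT.eventually_ge_atTop T0,
      hR1.eventually_ge_atTop 1, hR2.eventually_ge_atTop 1,
      hr.eventually (le_mem_nhds (show (1 / 2 : ℝ) < 1 by norm_num))] with T hTa hTb hTc hTd hTe hTf
    have hT20 : 20 ≤ T := hT0.trans hTa
    have hT00 : 0 < T := by linarith
    have hTg : 1 < T := by linarith
    have hvT20 : 20 ≤ v * T := hT0.trans hTc
    have hvT0 : 0 < v * T := by linarith
    have hvT1 : 1 < v * T := by linarith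
    have hL : 0 < Real.log T := Real.log_pos hTg
    have hL' : 0 < Real.log (v * T) := Real.log_pos hvT1
    obtain ⟨r, hrr⟩ : ∃ r : ℝ, r = Real.log (v * T) / Real.log T := ⟨_, rfl⟩
    obtain ⟨M, hM⟩ : ∃ M : ℝ, M = μ * T ^ 2 := ⟨_, rfl⟩
    have hM1 : M ≤ T ^ 2 := by
      rw [hM]
      calc μ * T ^ 2 ≤ 1 * T ^ 2 :=
            mul_le_mul_of_nonneg_right (by rw [hμ]; exact min_le_left _ _) (sq_nonneg T)
        _ = _ := one_mul _
    have hM2 : M ≤ (v * T) ^ 2 := by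
      rw [hM, mul_pow]
      exact mul_le_mul_of_nonneg_right (by rw [hμ]; exact min_le_right _ _) (sq_nonneg T)
    have hMT : M / T = μ * T := by rw [hM]; field_simp
    have hMvT : M / (v * T) = μ / v * T := by rw [hM]; field_simp
    rw [← hrr] at hTf ⊢
    have t1 := tail hC hCb hB hT0 hD hb hd hTa hv (M := M) (by rw [hMT]; exact hTd)
    have t2 := tail hC hCb hB hT0 hD hb hd hTc one_pos (M := M) (by rw [hMvT]; exact hTe)
    rw [hMT] at t1
    rw [hMvT] at t2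
    rw [RP_eq]
    -- split both sums
    have s1 := split_cut hM1 (fun q => ph (pp T q / v) * cw (CT w) T q)
    have s2 := split_cut hM2 (fun q => ph (pp (v * T) q / 1) * cw (CT w) (v * T) q)
    simp_rw [div_one] at s2 t2
    have e1 : ∑ q ∈ AP T, ph (pp T q / v) * cw (CT w) T q = _ := s1
    have e2 : ∑ q ∈ AP (v * T), ph (pp (v * T) q) * cw (CT w) (v * T) q = _ := s2
    -- the main difference
    have h3 : |∑ s ∈ Zt M, ∑ s' ∈ Zt M, ph (pp T (s, s') / v) * cw (CT w) T (s, s') -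
        v * r * ∑ s ∈ Zt M, ∑ s' ∈ Zt M, ph (pp (v * T) (s, s')) * cw (CT w) (v * T) (s, s')| ≤
        8 * C1 * |r - 1| * (C * B1 * (1 + v)) := by
      have h4 := (hCb (ℂ × ℂ) (AP T) (pp T) (cw (fun y => 1 / (1 + y ^ 2)) T) B1 hB1
        (fun q hq => ⟨pp_pos hT00 hq, cw_nonneg (fun y => by positivity) hTg q⟩) (hb1 T hTb) v hv).1
      have h5 : ∀ q : ℂ × ℂ, |ph (pp T q / v) * cw (CT w) T q -
          v * r * (ph (pp (v * T) q) * cw (CT w) (v * T) q)| ≤
          8 * C1 * |r - 1| * (ph (pp T q / v) * cw (fun y => 1 / (1 + y ^ 2)) T q) := by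
        intro q
        obtain ⟨y, hy⟩ : ∃ y : ℝ, y = (q.1.im - q.2.im) * Real.log T / (2 * Real.pi) := ⟨_, rfl⟩
        have hy2 : (q.1.im - q.2.im) * Real.log (v * T) / (2 * Real.pi) = r * y := by
          rw [hy, hrr]
          field_simp
        have e3 : ph (pp T q / v) * cw (CT w) T q -
            v * r * (ph (pp (v * T) q) * cw (CT w) (v * T) q) =
            ph (pp T q / v) * (mz q.1 * mz q.2 * (2 / (T * Real.log T))) * (CT w y - CT w (r * y)) := by
          rw [pp_scale hv hT00]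
          unfold cw
          rw [hy2, ← hy, hrr]
          field_simp
        have e4 : ph (pp T q / v) * cw (fun y => 1 / (1 + y ^ 2)) T q =
            ph (pp T q / v) * (mz q.1 * mz q.2 * (2 / (T * Real.log T))) * (1 / (1 + y ^ 2)) := by
          unfold cw
          simp only
          rw [← hy]
          ring
        have h6 : 0 ≤ ph (pp T q / v) * (mz q.1 * mz q.2 * (2 / (T * Real.log T))) :=
          mul_nonneg (ph_nn _) (mul_nonneg (mul_nonneg (mz_nonneg _) (mz_nonneg _)) (by positivity))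
        rw [e3, e4, abs_mul, abs_of_nonneg h6, abs_sub_comm]
        calc _ ≤ ph (pp T q / v) * (mz q.1 * mz q.2 * (2 / (T * Real.log T))) *
              (8 * C1 * |r - 1| * (1 / (1 + y ^ 2))) :=
              mul_le_mul_of_nonneg_left (scale8 hC1 hs hTf y) h6
          _ = _ := by ring
      rw [Finset.mul_sum, ← Finset.sum_sub_distrib]
      have e5 : ∑ s ∈ Zt M, (∑ s' ∈ Zt M, ph (pp T (s, s') / v) * cw (CT w) T (s, s') -
          v * r * ∑ s' ∈ Zt M, ph (pp (v * T) (s, s')) * cw (CT w) (v * T) (s, s')) =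
          ∑ s ∈ Zt M, ∑ s' ∈ Zt M, (fun q : ℂ × ℂ => ph (pp T q / v) * cw (CT w) T q -
          v * r * (ph (pp (v * T) q) * cw (CT w) (v * T) q)) (s, s') := by
        refine Finset.sum_congr rfl fun s _ => ?_
        rw [Finset.mul_sum, ← Finset.sum_sub_distrib]
      rw [e5, ← cut hM1 (fun q : ℂ × ℂ => ph (pp T q / v) * cw (CT w) T q -
          v * r * (ph (pp (v * T) q) * cw (CT w) (v * T) q))]
      have h7 : 8 * C1 * |r - 1| * ∑ q ∈ AP T, ph (pp T q / v) * cw (fun y => 1 / (1 + y ^ 2)) T q ≤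
          8 * C1 * |r - 1| * (C * B1 * (1 + v)) := mul_le_mul_of_nonneg_left h4 (by positivity)
      rw [Finset.mul_sum] at h7
      refine (Finset.abs_sum_le_sum_abs _ _).trans (le_trans (Finset.sum_le_sum fun q hq => ?_) h7)
      split_ifs
      · exact h5 q
      · rw [abs_zero]
        exact mul_nonneg (by positivity) (mul_nonneg (ph_nn _)
          (cw_nonneg (fun y => by positivity) hTg q))
    have e6 : ∑ q ∈ AP T, ph (pp T q / v) * cw (CT w) T q -
        v * r * ∑ q ∈ AP (v * T), ph (pp (v * T) q) * cw (CT w) (v * T) q =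
        (∑ s ∈ Zt M, ∑ s' ∈ Zt M, ph (pp T (s, s') / v) * cw (CT w) T (s, s') -
        v * r * ∑ s ∈ Zt M, ∑ s' ∈ Zt M, ph (pp (v * T) (s, s')) * cw (CT w) (v * T) (s, s')) +
        ∑ q ∈ AP T, (if M < max q.1.im q.2.im then ph (pp T q / v) * cw (CT w) T q else 0) -
        v * r * ∑ q ∈ AP (v * T), (if M < max q.1.im q.2.im then ph (pp (v * T) q) *
          cw (CT w) (v * T) q else 0) := by
      rw [e1, e2]
      unfold AP
      ring
    rw [e6, Real.norm_eq_abs]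
    have h8 : |v * r * ∑ q ∈ AP (v * T), (if M < max q.1.im q.2.im then ph (pp (v * T) q) *
          cw (CT w) (v * T) q else 0)| ≤ v * |r| * (C * B * 1 ^ 2 / (μ / v * T)) := by
      rw [abs_mul, abs_mul, abs_of_pos hv]
      exact mul_le_mul_of_nonneg_left t2 (by positivity)
    refine (abs_sub _ _).trans ?_
    refine (add_le_add (abs_add_le _ _) h8).trans ?_
    linarith
  have h2 := h1.add hdiff
  rw [add_zero] at h2
  refine h2.congr fun T => ?_
  ring

end TAx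

theorem ta : S_TA := by
  intro RH w ℓ hw hpos h
  obtain ⟨D, hD, hd⟩ := ew_decay hw
  obtain ⟨B, T0, hB, hT0, hb⟩ := Bbound RH hD
  have hpi := Real.pi_pos
  have h1 := Pool.Agent.N531.PVTAU.main Pool.Agent.N482.PV.abelb (ℂ × ℂ) (ℓ / Real.pi) B T0 AP pp
    (cw (CT w)) ?_ ?_ ?_
  · have h2 := h1.const_mul Real.pi
    rw [show Real.pi * (ℓ / Real.pi) = ℓ by field_simp] at h2
    refine h2.congr' ?_
    filter_upwards [eventually_ge_atTop 20] with T hT
    have hT0 : 0 < T := by linarith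
    have hL : 0 < Real.log T := Real.log_pos (by linarith)
    have hU2 : T ≤ T ^ 2 := by nlinarith
    have e1 : ∑ q ∈ AP T, (if pp T q ≤ 1 then cw (CT w) T q else 0) =
        ∑ s ∈ Zt T, ∑ s' ∈ Zt T, cw (CT w) T (s, s') := by
      rw [← cut hU2]
      refine Finset.sum_congr rfl fun q hq => ?_
      have h1 : pp T q ≤ 1 ↔ max q.1.im q.2.im ≤ T := by
        unfold pp
        rw [div_le_iff₀ hT0, one_mul]
      by_cases h : pp T q ≤ 1
      · rw [if_pos h, if_pos (h1.1 h)]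
      · rw [if_neg h, if_neg (fun hc => h (h1.2 hc))]
    have e2 : ∑ s ∈ Zt T, ∑ s' ∈ Zt T, cw (CT w) T (s, s') =
        2 / (T * Real.log T) * Q2 (CT w) T (Real.log T) := by
      unfold Q2 QS
      rw [Finset.mul_sum]
      refine Finset.sum_congr rfl fun s _ => ?_
      rw [Finset.mul_sum]
      refine Finset.sum_congr rfl fun s' _ => ?_
      unfold cw
      ring
    rw [e1, e2]
    unfold QP
    have hX : Xf T = T * Real.log T / (2 * Real.pi) := rfl
    rw [hX]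
    field_simp
  · intro T hT q hq
    have hT20 : 20 ≤ T := hT0.trans hT
    exact ⟨pp_pos (by linarith) hq, TAx.cw_nonneg hpos (by linarith) q⟩
  · intro T hT v hv
    have hT20 : 20 ≤ T := hT0.trans hT
    refine le_trans (Finset.sum_le_sum fun q _ => ?_) (hb T hT v hv)
    split_ifs
    · exact (le_abs_self _).trans (TAx.cw_abs (TAx.decay1 hD hd) (by linarith) q)
    · exact le_rfl
  · intro v hv
    have h2 := TAx.star RH hw h hv
    rw [show Real.pi * v * (ℓ / Real.pi) = v * ℓ by field_simp]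
    exact h2

end H479.V
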